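import Mathlib

/-!
# Cayley graphs, number of ends, coarsely bounded sets
-/

set_option autoImplicit false

namespace Pool.Agent.Helper50.Ends

/-- The Cayley graph: `g` and `h` are adjacent when they differ by right multiplication by an
element of `S` or its inverse. -/
def cayley {G : Type*} [Group G] (S : Set G) : SimpleGraph G where
  Adj g h := g ≠ h ∧ (g⁻¹ * h ∈ S ∨ h⁻¹ * g ∈ S)
  symm := ⟨fun _ _ h => ⟨h.1.symm, h.2.symm⟩⟩
  loopless := ⟨fun _ h => h.1 rfl⟩

/-- A set of vertices of bounded distance from the identity in the graph metric of `Γ`. -/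
def IsBounded {G : Type*} [Group G] (Γ : SimpleGraph G) (B : Set G) : Prop :=
  ∃ n : ℕ, ∀ b ∈ B, Γ.dist 1 b ≤ n

/-- The vertices of a connected component of the graph left after deleting `B`. -/
def componentVertices {G : Type*} [Group G] (Γ : SimpleGraph G) (B : Set G)
    (C : (Γ.induce Bᶜ).ConnectedComponent) : Set G :=
  {g : G | ∃ h : g ∈ Bᶜ, (Γ.induce Bᶜ).connectedComponentMk ⟨g, h⟩ = C}

/-- The number of ends of `Γ`: the supremum, over bounded sets `B` of vertices, of the number of
unbounded connected components of the graph obtained by deleting `B`. -/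
noncomputable def numEnds {G : Type*} [Group G] (Γ : SimpleGraph G) : ℕ∞ :=
  ⨆ B : {B : Set G // IsBounded Γ B},
    Set.encard {C : (Γ.induce (B.1)ᶜ).ConnectedComponent |
      ¬ IsBounded Γ (componentVertices Γ B.1 C)}

/-- A continuous left-invariant pseudometric on a topological group. -/
structure LeftPseudometric (G : Type*) [Group G] [TopologicalSpace G] where
  /-- the distance function -/
  d : G → G → ℝ
  d_self : ∀ x, d x x = 0
  d_symm : ∀ x y, d x y = d y x
  d_triangle : ∀ x y z, d x z ≤ d x y + d y z
  d_left : ∀ g x y, d (g * x) (g * y) = d x y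
  d_cont : Continuous (fun p : G × G => d p.1 p.2)

/-- A coarsely bounded set: it has finite diameter for every continuous left-invariant
pseudometric. -/
def CoarselyBounded {G : Type*} [Group G] [TopologicalSpace G] (A : Set G) : Prop :=
  ∀ δ : LeftPseudometric G, ∃ K : ℝ, ∀ x ∈ A, ∀ y ∈ A, δ.d x y ≤ K

end Pool.Agent.Helper50.Ends
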