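import Mathlib

set_option autoImplicit false

namespace Pool.Agent.Helper50.Ends

open Relation

variable {G : Type*}

/-- `x` and `y` can be joined in the graph after deleting the vertices of `A`. -/
def Rch (Γ : SimpleGraph G) (A : Set G) (x y : G) : Prop :=
  x ∉ A ∧ ReflTransGen (fun a b => Γ.Adj a b ∧ b ∉ A) x y

/-- The component of `x` in the complement of `A`. -/
def comp (Γ : SimpleGraph G) (A : Set G) (x : G) : Set G := {y | Rch Γ A x y}

section Basic

variable {Γ : SimpleGraph G} {A A' : Set G} {x y z : G}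

lemma Rch.refl (hx : x ∉ A) : Rch Γ A x x := ⟨hx, ReflTransGen.refl⟩

lemma Rch.notMem_right (h : Rch Γ A x y) : y ∉ A := by
  obtain ⟨hx, h⟩ := h
  cases h with
  | refl => exact hx
  | tail _ h => exact h.2

lemma Rch.trans (h : Rch Γ A x y) (h' : Rch Γ A y z) : Rch Γ A x z :=
  ⟨h.1, h.2.trans h'.2⟩

lemma Rch.symm (h : Rch Γ A x y) : Rch Γ A y x := by
  obtain ⟨hx, h⟩ := h
  induction h with
  | refl => exact Rch.refl hx
  | tail h1 h2 ih =>
    refine ⟨h2.2, ?_⟩
    have := ih
    refine ReflTransGen.head ⟨h2.1.symm, ?_⟩ ih.2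
    exact ih.1

lemma Rch.mono (hA : A ⊆ A') (h : Rch Γ A' x y) : Rch Γ A x y :=
  ⟨fun hx => h.1 (hA hx),
    ReflTransGen.mono (fun _ _ hab => ⟨hab.1, fun hb => hab.2 (hA hb)⟩) _ _ h.2⟩

lemma rch_of_walk (p : Γ.Walk x y) (h : ∀ v ∈ p.support, v ∉ A) : Rch Γ A x y := by
  induction p with
  | nil => exact Rch.refl (h _ (by simp))
  | cons hadj p ih =>
    rename_i u v w
    have h1 := ih (fun v hv => h v (by simp [hv]))
    refine ⟨h _ (by simp), ReflTransGen.head ⟨hadj, h1.1⟩ h1.2⟩

lemma dist_support (p : Γ.Walk x y) {v : G} (hv : v ∈ p.support) : Γ.dist x v ≤ p.length := by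
  classical
  exact (SimpleGraph.dist_le (p.takeUntil v hv)).trans (p.length_takeUntil_le_length hv)

/-- Paths inside a ball avoid sets outside the ball. -/
lemma path_avoid (hc : Γ.Connected) {L : ℕ} (hA : ∀ a ∈ A, L < Γ.dist x a)
    (hxy : Γ.dist x y ≤ L) : Rch Γ A x y := by
  obtain ⟨p, hp⟩ := hc.exists_walk_length_eq_dist x y
  apply rch_of_walk p
  intro v hv hvA
  have h1 := dist_support p hv
  have h2 := hA v hvA
  omega

lemma mem_comp_self (hx : x ∉ A) : x ∈ comp Γ A x := Rch.refl hx

lemma comp_eq_of_rch (h : Rch Γ A x y) : comp Γ A x = comp Γ A y := by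
  ext w
  exact ⟨fun hw => h.symm.trans hw, fun hw => h.trans hw⟩

/-- A component persists when further vertices outside of it are removed. -/
lemma comp_union (hA' : ∀ v ∈ comp Γ A x, v ∉ A') : comp Γ (A ∪ A') x = comp Γ A x := by
  ext y
  constructor
  · intro h
    exact Rch.mono Set.subset_union_left h
  · intro h
    have hx : x ∈ comp Γ A x := ⟨h.1, ReflTransGen.refl⟩
    refine ⟨fun hxA => ?_, ?_⟩
    · rcases hxA with h1 | h1
      · exact h.1 h1
      · exact hA' x hx h1
    · obtain ⟨hx0, h⟩ := h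
      induction h with
      | refl => exact ReflTransGen.refl
      | tail h1 h2 ih =>
        refine ih.tail ⟨h2.1, fun hb => ?_⟩
        rcases hb with hb | hb
        · exact h2.2 hb
        · exact hA' _ ⟨hx0, h1.tail h2⟩ hb

/-- The component touches the ball around the deleted set. -/
lemma touch (hc : Γ.Connected) {g : G} {r : ℕ} (hA : ∀ a ∈ A, Γ.dist g a ≤ r)
    (hx : x ∉ A) (hd : ∀ a ∈ A', r < Γ.dist g a)
    (hF : ∀ v ∈ comp Γ A x, v ∉ A') : Rch Γ A' x g := by
  obtain ⟨p⟩ := hc.preconnected x g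
  -- general statement along walks
  have key : ∀ {u v : G} (p : Γ.Walk u v), v = g → u ∈ comp Γ A x → Rch Γ A' u g := by
    intro u v p
    induction p with
    | nil =>
      rintro rfl hu
      exact Rch.refl (hF _ hu)
    | cons hadj p ih =>
      rename_i u v w
      intro hw hu
      by_cases huB : Γ.dist g u ≤ r
      · exact (path_avoid hc hd huB).symm
      · have hv : v ∈ comp Γ A x ∨ Γ.dist g v ≤ r := by
          by_cases hvA : v ∈ A
          · right; exact hA v hvA
          · left
            exact Rch.trans hu ⟨hu.notMem_right, ReflTransGen.single ⟨hadj, hvA⟩⟩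
        have huA' : u ∉ A' := hF u hu
        rcases hv with hv | hv
        · have h1 := ih hw hv
          exact ⟨huA', ReflTransGen.head ⟨hadj, h1.1⟩ h1.2⟩
        · have h1 := (path_avoid hc hd hv).symm
          exact ⟨huA', ReflTransGen.head ⟨hadj, h1.1⟩ h1.2⟩
  exact key p rfl (mem_comp_self hx)

end Basic

section Action

variable [Group G]

variable {Γ : SimpleGraph G} (hΓ : ∀ k g h : G, Γ.Adj g h → Γ.Adj (k * g) (k * h))

include hΓ

lemma dist_mul_left_le (hc : Γ.Connected) (k g h : G) :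
    Γ.dist (k * g) (k * h) ≤ Γ.dist g h := by
  obtain ⟨p, hp⟩ := hc.exists_walk_length_eq_dist g h
  let φ : Γ →g Γ := ⟨fun x => k * x, fun {a b} hab => hΓ k a b hab⟩
  have := SimpleGraph.dist_le (p.map φ)
  rw [SimpleGraph.Walk.length_map, hp] at this
  exact this

lemma dist_mul_left (hc : Γ.Connected) (k g h : G) :
    Γ.dist (k * g) (k * h) = Γ.dist g h := by
  apply le_antisymm (dist_mul_left_le hΓ hc k g h)
  have := dist_mul_left_le hΓ hc k⁻¹ (k * g) (k * h)
  simpa using this

lemma rch_mul_left {A : Set G} {x y : G} (k : G) (h : Rch Γ A x y) :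
    Rch Γ ((fun a => k * a) '' A) (k * x) (k * y) := by
  obtain ⟨hx, h⟩ := h
  refine ⟨?_, ?_⟩
  · rintro ⟨a, ha, hax⟩
    have : a = x := mul_left_cancel hax
    exact hx (this ▸ ha)
  · refine ReflTransGen.lift (fun a => k * a) ?_ _ _ h
    intro a b hab
    refine ⟨hΓ k a b hab.1, ?_⟩
    rintro ⟨c, hc, hcb⟩
    have : c = b := mul_left_cancel hcb
    exact hab.2 (this ▸ hc)

lemma rch_mul_left_iff {A : Set G} {x y : G} (k : G) :
    Rch Γ ((fun a => k * a) '' A) (k * x) (k * y) ↔ Rch Γ A x y := by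
  constructor
  · intro h
    have := rch_mul_left hΓ k⁻¹ h
    rw [Set.image_image] at this
    simpa only [inv_mul_cancel_left, Set.image_id'] using this
  · exact rch_mul_left hΓ k

end Action

end Pool.Agent.Helper50.Ends
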