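import Mathlib
import Pool.Agent.Helper50.Ends.Basic

set_option autoImplicit false

namespace Pool.Agent.Helper50.Ends

open Relation

variable {G : Type*} [Group G]

/-- Bounded sets of vertices. -/
def Bd (Γ : SimpleGraph G) (A : Set G) : Prop := ∃ n : ℕ, ∀ a ∈ A, Γ.dist 1 a ≤ n

/-- `x` lies in an unbounded component of the complement of `A`. -/
def Unb (Γ : SimpleGraph G) (A : Set G) (x : G) : Prop := x ∉ A ∧ ¬ Bd Γ (comp Γ A x)

/-- Translate of a set. -/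
def tr (k : G) (A : Set G) : Set G := (fun a => k * a) '' A

lemma mem_tr {k x : G} {A : Set G} : x ∈ tr k A ↔ k⁻¹ * x ∈ A := by
  constructor
  · rintro ⟨a, ha, rfl⟩
    simpa using ha
  · intro h
    exact ⟨_, h, by simp⟩

lemma tr_mul (k l : G) (A : Set G) : tr (k * l) A = tr k (tr l A) := by
  ext x
  simp only [mem_tr, mul_inv_rev, mul_assoc]

lemma tr_one (A : Set G) : tr 1 A = A := by
  ext x
  simp [mem_tr]

structure Setup (Γ : SimpleGraph G) : Prop where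
  inv : ∀ k g h : G, Γ.Adj g h → Γ.Adj (k * g) (k * h)
  conn : Γ.Connected
  /-- no bounded set leaves three unbounded components -/
  three : ∀ A : Set G, Bd Γ A → ∀ x y z : G, Unb Γ A x → Unb Γ A y → Unb Γ A z →
    Rch Γ A x y ∨ Rch Γ A y z ∨ Rch Γ A x z

variable {Γ : SimpleGraph G}

lemma Setup.dm (H : Setup Γ) (k g h : G) : Γ.dist (k * g) (k * h) = Γ.dist g h :=
  dist_mul_left H.inv H.conn k g h

lemma Setup.tri (H : Setup Γ) (x y z : G) : Γ.dist x z ≤ Γ.dist x y + Γ.dist y z :=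
  H.conn.dist_triangle

lemma Setup.rtr (H : Setup Γ) {A : Set G} {x y : G} (k : G) :
    Rch Γ (tr k A) (k * x) (k * y) ↔ Rch Γ A x y := rch_mul_left_iff H.inv k

lemma Setup.dist_inv (H : Setup Γ) (g : G) : Γ.dist 1 g⁻¹ = Γ.dist 1 g := by
  have := H.dm g 1 g⁻¹
  rw [mul_one, mul_inv_cancel, SimpleGraph.dist_comm] at this
  exact this.symm

lemma Setup.dist_mul (H : Setup Γ) (g h : G) : Γ.dist 1 (g * h) ≤ Γ.dist 1 g + Γ.dist 1 h := by
  have h1 := H.tri 1 g (g * h)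
  have h2 := H.dm g 1 h
  rw [mul_one] at h2
  omega

lemma Setup.dist_pow (H : Setup Γ) (f : G) (n : ℕ) : Γ.dist 1 (f ^ n) ≤ n * Γ.dist 1 f := by
  induction n with
  | zero => simp
  | succ n ih =>
    rw [pow_succ]
    have := H.dist_mul (f ^ n) f
    calc Γ.dist 1 (f ^ n * f) ≤ Γ.dist 1 (f ^ n) + Γ.dist 1 f := this
      _ ≤ n * Γ.dist 1 f + Γ.dist 1 f := by omega
      _ = (n + 1) * Γ.dist 1 f := by ring

lemma Setup.dist_zpow (H : Setup Γ) (f : G) (n : ℤ) :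
    Γ.dist 1 (f ^ n) ≤ n.natAbs * Γ.dist 1 f := by
  obtain ⟨m, rfl | rfl⟩ := n.eq_nat_or_neg
  · rw [zpow_natCast, Int.natAbs_natCast]
    exact H.dist_pow f m
  · rw [zpow_neg, zpow_natCast, H.dist_inv, Int.natAbs_neg, Int.natAbs_natCast]
    exact H.dist_pow f m

lemma Setup.comp_tr (H : Setup Γ) (k : G) (A : Set G) (x : G) :
    comp Γ (tr k A) (k * x) = tr k (comp Γ A x) := by
  ext y
  rw [mem_tr]
  change Rch Γ (tr k A) (k * x) y ↔ Rch Γ A x (k⁻¹ * y)
  have : y = k * (k⁻¹ * y) := by simp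
  conv_lhs => rw [this]
  exact H.rtr k

lemma Setup.bd_tr (H : Setup Γ) {A : Set G} (k : G) (h : Bd Γ A) : Bd Γ (tr k A) := by
  obtain ⟨n, hn⟩ := h
  refine ⟨Γ.dist 1 k + n, ?_⟩
  rintro _ ⟨a, ha, rfl⟩
  have := H.dist_mul k a
  have := hn a ha
  simp only
  omega

lemma Setup.bd_tr_iff (H : Setup Γ) {A : Set G} (k : G) : Bd Γ (tr k A) ↔ Bd Γ A := by
  refine ⟨fun h => ?_, H.bd_tr k⟩
  have := H.bd_tr k⁻¹ h
  rwa [← tr_mul, inv_mul_cancel, tr_one] at this

lemma Setup.unb_tr (H : Setup Γ) {A : Set G} {x : G} (k : G) :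
    Unb Γ (tr k A) (k * x) ↔ Unb Γ A x := by
  unfold Unb
  rw [H.comp_tr, H.bd_tr_iff, mem_tr, inv_mul_cancel_left]

lemma Bd.union {A A' : Set G} (h : Bd Γ A) (h' : Bd Γ A') : Bd Γ (A ∪ A') := by
  obtain ⟨n, hn⟩ := h
  obtain ⟨m, hm⟩ := h'
  refine ⟨max n m, ?_⟩
  rintro a (ha | ha)
  · exact (hn a ha).trans (le_max_left _ _)
  · exact (hm a ha).trans (le_max_right _ _)

lemma Unb.of_rch {A : Set G} {x y : G} (h : Unb Γ A x) (hxy : Rch Γ A x y) : Unb Γ A y :=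
  ⟨hxy.notMem_right, by rw [← comp_eq_of_rch hxy]; exact h.2⟩

/-- All powers of `f` are connected outside of a set far from them. -/
lemma Setup.axis (H : Setup Γ) {A : Set G} {f : G}
    (hA : ∀ a ∈ A, ∀ n : ℤ, Γ.dist 1 f < Γ.dist (f ^ n) a) (n m : ℤ) :
    Rch Γ A (f ^ n) (f ^ m) := by
  have step : ∀ n : ℤ, Rch Γ A (f ^ n) (f ^ (n + 1)) := by
    intro n
    apply path_avoid H.conn (L := Γ.dist 1 f) (fun a ha => hA a ha n)
    have := H.dm (f ^ n) 1 f
    rw [mul_one, ← zpow_add_one] at this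
    exact this.le
  have step' : ∀ (n : ℤ) (k : ℕ), Rch Γ A (f ^ n) (f ^ (n + k)) := by
    intro n k
    induction k with
    | zero => simpa using Rch.refl (step n).1
    | succ k ih =>
      have := ih.trans (step (n + k))
      simpa [add_assoc] using this
  rcases le_total n m with h | h
  · obtain ⟨k, rfl⟩ := Int.le.dest h
    exact step' n k
  · obtain ⟨k, rfl⟩ := Int.le.dest h
    exact (step' m k).symm

/-- Proper powers. -/
def Proper (Γ : SimpleGraph G) (f : G) : Prop := ∀ R : ℕ, {n : ℤ | Γ.dist 1 (f ^ n) ≤ R}.Finite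

lemma Proper.exists_bound {f : G} (hf : Proper Γ f) (R : ℕ) :
    ∃ N : ℕ, ∀ n : ℤ, (N : ℤ) ≤ |n| → R < Γ.dist 1 (f ^ n) := by
  have h := hf R
  obtain ⟨N, hN⟩ : ∃ N : ℕ, ∀ n ∈ {n : ℤ | Γ.dist 1 (f ^ n) ≤ R}, |n| < N := by
    obtain ⟨M, hM⟩ := (h.image (fun n : ℤ => |n|)).bddAbove
    refine ⟨(M + 1).toNat, fun n hn => ?_⟩
    have := hM (Set.mem_image_of_mem _ hn)
    have h0 : 0 ≤ |n| := abs_nonneg n
    omega
  refine ⟨N, fun n hn => ?_⟩
  by_contra hlt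
  have := hN n (not_lt.mp hlt)
  omega

/-- The tails of the powers of `f` lie in unbounded components. -/
lemma Setup.tails (H : Setup Γ) {f : G} (hf : Proper Γ f) {A : Set G} (hA : Bd Γ A) :
    ∃ N : ℕ, ∀ M : ℕ, N ≤ M → Unb Γ A (f ^ (M : ℤ)) ∧ Unb Γ A (f ^ (-(M : ℤ))) ∧
      (∀ n : ℤ, (M : ℤ) ≤ n → Rch Γ A (f ^ (M : ℤ)) (f ^ n)) ∧
      (∀ n : ℤ, (M : ℤ) ≤ n → Rch Γ A (f ^ (-(M : ℤ))) (f ^ (-n))) := by
  obtain ⟨R, hR⟩ := hA
  obtain ⟨N, hN⟩ := hf.exists_bound (R + Γ.dist 1 f)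
  refine ⟨N, fun M hM => ?_⟩
  have far : ∀ n : ℤ, (N : ℤ) ≤ |n| → ∀ a ∈ A, Γ.dist 1 f < Γ.dist (f ^ n) a := by
    intro n hn a ha
    have h1 := hN n hn
    have h2 := hR a ha
    have h3 := H.tri 1 a (f ^ n)
    rw [SimpleGraph.dist_comm (u := a)] at h3
    omega
  have step : ∀ n : ℤ, (N : ℤ) ≤ |n| → Rch Γ A (f ^ n) (f ^ (n + 1)) := by
    intro n hn
    apply path_avoid H.conn (L := Γ.dist 1 f) (far n hn)
    have := H.dm (f ^ n) 1 f
    rw [mul_one, ← zpow_add_one] at this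
    exact this.le
  have up : ∀ k : ℕ, Rch Γ A (f ^ (M : ℤ)) (f ^ ((M : ℤ) + k)) := by
    intro k
    induction k with
    | zero =>
      simpa using Rch.refl (step (M : ℤ) (by rw [abs_of_nonneg (by positivity)]; omega)).1
    | succ k ih =>
      have h1 := ih.trans (step ((M : ℤ) + k) (by rw [abs_of_nonneg (by positivity)]; omega))
      simpa [add_assoc] using h1
  have down : ∀ k : ℕ, Rch Γ A (f ^ (-(M : ℤ))) (f ^ (-((M : ℤ) + k))) := by
    intro k
    induction k with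
    | zero =>
      have h0 : (N : ℤ) ≤ |(-(M : ℤ))| := by rw [abs_neg, abs_of_nonneg (by positivity)]; omega
      simpa using Rch.refl (step (-(M : ℤ)) h0).1
    | succ k ih =>
      have h0 : (N : ℤ) ≤ |-((M : ℤ) + k) - 1| := by
        rw [show -((M : ℤ) + k) - 1 = -((M : ℤ) + k + 1) by ring, abs_neg,
          abs_of_nonneg (by positivity)]
        omega
      have h1 := (step (-((M : ℤ) + k) - 1) h0).symm
      rw [sub_add_cancel] at h1
      have h2 := ih.trans h1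
      have h3 : -((M : ℤ) + k) - 1 = -((M : ℤ) + ((k + 1 : ℕ) : ℤ)) := by push_cast; ring
      rw [h3] at h2
      exact h2
  have up' : ∀ n : ℤ, (M : ℤ) ≤ n → Rch Γ A (f ^ (M : ℤ)) (f ^ n) := by
    intro n hn
    obtain ⟨k, rfl⟩ := Int.le.dest hn
    exact up k
  have down' : ∀ n : ℤ, (M : ℤ) ≤ n → Rch Γ A (f ^ (-(M : ℤ))) (f ^ (-n)) := by
    intro n hn
    obtain ⟨k, rfl⟩ := Int.le.dest hn
    exact down k
  refine ⟨⟨(up' M le_rfl).1, ?_⟩, ⟨(down' M le_rfl).1, ?_⟩, up', down'⟩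
  · rintro ⟨K, hK⟩
    obtain ⟨N', hN'⟩ := hf.exists_bound K
    have h1 := hK _ (up' (M + N') (by omega))
    have h2 := hN' (M + N') (by rw [abs_of_nonneg (by positivity)]; omega)
    omega
  · rintro ⟨K, hK⟩
    obtain ⟨N', hN'⟩ := hf.exists_bound K
    have h1 := hK _ (down' (M + N') (by omega))
    have h2 := hN' (-(M + N')) (by rw [abs_neg, abs_of_nonneg (by positivity)]; omega)
    omega

/-- The tails of `f` are separated by any set with two unbounded components. -/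
lemma Setup.separated (H : Setup Γ) {f : G} (hf : Proper Γ f) {B : Set G} (hB : Bd Γ B)
    {c₁ c₂ : G} (h1 : Unb Γ B c₁) (h2 : Unb Γ B c₂) (h12 : ¬ Rch Γ B c₁ c₂) :
    ∃ N : ℕ, ∀ M : ℕ, N ≤ M → ¬ Rch Γ B (f ^ (M : ℤ)) (f ^ (-(M : ℤ))) := by
  obtain ⟨N, hN⟩ := H.tails hf hB
  refine ⟨N, fun M hM hcon => ?_⟩
  obtain ⟨hu, hd, hup, hdown⟩ := hN M hM
  obtain ⟨r, hr⟩ := hB
  set L := Γ.dist 1 f with hL
  -- a component away from the axis
  obtain ⟨c, hc, hcf⟩ : ∃ c, Unb Γ B c ∧ ¬ Rch Γ B (f ^ (M : ℤ)) c := by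
    by_cases h : Rch Γ B (f ^ (M : ℤ)) c₁
    · refine ⟨c₂, h2, fun h' => h12 (h.symm.trans h')⟩
    · exact ⟨c₁, h1, h⟩
  have hfar : ∀ n : ℤ, (M : ℤ) ≤ |n| → Rch Γ B (f ^ (M : ℤ)) (f ^ n) := by
    intro n hn
    rcases abs_cases n with ⟨h, _⟩ | ⟨h, _⟩
    · rw [h] at hn; exact hup n hn
    · rw [h] at hn
      have := hdown (-n) hn
      rw [neg_neg] at this
      exact hcon.trans this
  -- choose `g` far away in this component
  obtain ⟨g, hg, hgd⟩ : ∃ g ∈ comp Γ B c, (r + 2 * (r + L) + M * L + (r + L)) < Γ.dist 1 g := by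
    by_contra hno
    push Not at hno
    exact hc.2 ⟨_, hno⟩
  have gfar : ∀ n : ℤ, r + L < Γ.dist (f ^ n) g := by
    intro n
    by_contra hle
    push Not at hle
    by_cases hn : (M : ℤ) ≤ |n|
    · by_cases hn2 : Γ.dist 1 (f ^ n) ≤ r + (r + L)
      · have := H.tri 1 (f ^ n) g
        omega
      · -- path from `f ^ n` to `g` avoids `B`
        have : Rch Γ B (f ^ n) g := by
          apply path_avoid H.conn (L := r + L) _ hle
          intro b hb
          have h3 := H.tri 1 b (f ^ n)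
          have h4 := hr b hb
          rw [SimpleGraph.dist_comm (u := b)] at h3
          omega
        apply hcf
        exact ((hfar n hn).trans this).trans (Rch.symm hg)
    · have h3 := H.dist_zpow f n
      have h4 : n.natAbs ≤ M := by
        have := Int.natCast_natAbs n
        omega
      have h5 : n.natAbs * Γ.dist 1 f ≤ M * L := Nat.mul_le_mul_right _ h4
      have := H.tri 1 (f ^ n) g
      omega
  -- the translate of `B`
  set A := tr g B with hAdef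
  have hAr : ∀ a ∈ A, Γ.dist g a ≤ r := by
    rintro _ ⟨b, hb, rfl⟩
    have := H.dm g 1 b
    rw [mul_one] at this
    simp only
    rw [this]
    exact hr b hb
  have hAfar : ∀ a ∈ A, ∀ n : ℤ, L < Γ.dist (f ^ n) a := by
    intro a ha n
    have h3 := gfar n
    have h4 := hAr a ha
    have h5 := H.tri (f ^ n) a g
    rw [SimpleGraph.dist_comm (u := a)] at h5
    omega
  have hax := H.axis hAfar
  obtain ⟨y, hy, hy1⟩ : ∃ y, Unb Γ A y ∧ ¬ Rch Γ A (f ^ (0 : ℤ)) y := by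
    by_cases h : Rch Γ A (f ^ (0 : ℤ)) (g * c₁)
    · refine ⟨g * c₂, (H.unb_tr g).mpr h2, fun h' => h12 ?_⟩
      exact (H.rtr g).mp (h.symm.trans h')
    · exact ⟨g * c₁, (H.unb_tr g).mpr h1, h⟩
  -- good shifts
  obtain ⟨N', hN'⟩ := hf.exists_bound (2 * Γ.dist 1 g + 2 * r)
  have good : ∀ n : ℤ, (N' : ℤ) ≤ |n| → ∀ a ∈ A, Γ.dist 1 g + r < Γ.dist (f ^ n) a := by
    intro n hn a ha
    have h3 := hN' n hn
    have h4 := hAr a ha
    have h5 := H.tri 1 g (f ^ n)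
    have h6 := H.tri g a (f ^ n)
    rw [SimpleGraph.dist_comm (u := a)] at h6
    omega
  have goodRch : ∀ n : ℤ, (N' : ℤ) ≤ |n| → ∀ b, Γ.dist 1 b ≤ r →
      Rch Γ A (f ^ n) (f ^ n * (g * b)) := by
    intro n hn b hb
    apply path_avoid H.conn (good n hn)
    have h3 := H.dm (f ^ n) 1 (g * b)
    rw [mul_one] at h3
    rw [h3]
    have := H.dist_mul g b
    omega
  have c1 : ∀ n : ℤ, (N' : ℤ) ≤ |n| → ∀ v ∈ comp Γ A y, v ∉ tr (f ^ n) A := by
    rintro n hn v hv ⟨_, ⟨b, hb, rfl⟩, rfl⟩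
    have h3 := goodRch n hn b (hr b hb)
    exact hy1 ((hax 0 n).trans (h3.trans (Rch.symm hv)))
  have c2 : ∀ n : ℤ, (N' : ℤ) ≤ |n| → ¬ Rch Γ A y (f ^ n * y) := by
    intro n hn hcon2
    have h3 : Rch Γ A (f ^ n * y) (f ^ n * g) := by
      refine touch H.conn (A := tr (f ^ n) A) (A' := A) (g := f ^ n * g) (r := r) ?_ ?_ ?_ ?_
      · rintro _ ⟨a, ha, rfl⟩
        simp only
        rw [H.dm]
        exact hAr a ha
      · rw [mem_tr, inv_mul_cancel_left]
        exact hy.1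
      · intro a ha
        have h4 := good n hn a ha
        have h5 := H.tri (f ^ n) (f ^ n * g) a
        have h6 := H.dm (f ^ n) 1 g
        rw [mul_one] at h6
        omega
      · rw [H.comp_tr]
        intro v hv hvA
        rw [mem_tr] at hv
        refine c1 (-n) (by rwa [abs_neg]) _ hv ?_
        rw [mem_tr, zpow_neg, inv_inv, mul_inv_cancel_left]
        exact hvA
    have h4 : Rch Γ A (f ^ n) (f ^ n * g) := by
      have := goodRch n hn 1 (by simp)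
      simpa using this
    exact hy1 ((hax 0 n).trans (h4.trans (h3.symm.trans hcon2.symm)))
  -- three translates
  have c1' : ∀ s t : ℤ, (N' : ℤ) ≤ |t - s| →
      ∀ v ∈ comp Γ (tr (f ^ s) A) (f ^ s * y), v ∉ tr (f ^ t) A := by
    intro s t hst v hv
    rw [H.comp_tr, mem_tr] at hv
    have := c1 (t - s) hst _ hv
    intro hv2
    apply this
    rw [mem_tr] at hv2 ⊢
    rw [← mul_assoc, ← mul_inv_rev, ← zpow_add, show s + (t - s) = t by ring]
    exact hv2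
  have c2' : ∀ s t : ℤ, (N' : ℤ) ≤ |t - s| →
      ¬ Rch Γ (tr (f ^ s) A) (f ^ s * y) (f ^ t * y) := by
    intro s t hst h
    apply c2 (t - s) hst
    rw [← H.rtr (f ^ s)]
    convert h using 1
    rw [← mul_assoc, ← zpow_add]
    congr 2
    ring
  have hAb : ∀ s : ℤ, Bd Γ (tr (f ^ s) A) := fun s => H.bd_tr _ (H.bd_tr _ ⟨r, hr⟩)
  have hunb : ∀ s : ℤ, Unb Γ (tr (f ^ s) A) (f ^ s * y) := fun s => (H.unb_tr _).mpr hy
  have comb : ∀ s t u : ℤ, (N' : ℤ) ≤ |t - s| → (N' : ℤ) ≤ |u - s| →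
      Unb Γ (tr (f ^ s) A ∪ (tr (f ^ t) A ∪ tr (f ^ u) A)) (f ^ s * y) := by
    intro s t u hst hsu
    have hdis : ∀ v ∈ comp Γ (tr (f ^ s) A) (f ^ s * y), v ∉ (tr (f ^ t) A ∪ tr (f ^ u) A) := by
      rintro v hv (h | h)
      · exact c1' s t hst v hv h
      · exact c1' s u hsu v hv h
    refine ⟨?_, ?_⟩
    · rintro (h | h)
      · exact (hunb s).1 h
      · exact hdis _ (mem_comp_self (hunb s).1) h
    · rw [comp_union hdis]
      exact (hunb s).2
  set K : ℤ := (N' : ℤ) + 1 with hK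
  have e1 : (N' : ℤ) ≤ |K - 0| := by rw [abs_of_nonneg (by omega)]; omega
  have e2 : (N' : ℤ) ≤ |2 * K - 0| := by rw [abs_of_nonneg (by omega)]; omega
  have e3 : (N' : ℤ) ≤ |2 * K - K| := by rw [abs_of_nonneg (by omega)]; omega
  have sw : ∀ s t : ℤ, (N' : ℤ) ≤ |t - s| → (N' : ℤ) ≤ |s - t| := by
    intro s t h
    rwa [abs_sub_comm]
  set T := tr (f ^ (0 : ℤ)) A ∪ (tr (f ^ K) A ∪ tr (f ^ (2 * K)) A) with hT
  have hTb : Bd Γ T := (hAb 0).union ((hAb K).union (hAb (2 * K)))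
  have u0 : Unb Γ T (f ^ (0 : ℤ) * y) := comb 0 K (2 * K) e1 e2
  have u1 : Unb Γ T (f ^ K * y) := by
    have := comb K 0 (2 * K) (sw _ _ e1) e3
    have hset : tr (f ^ K) A ∪ (tr (f ^ (0 : ℤ)) A ∪ tr (f ^ (2 * K)) A) = T := by
      rw [hT, Set.union_left_comm]
    rwa [hset] at this
  have u2 : Unb Γ T (f ^ (2 * K) * y) := by
    have := comb (2 * K) 0 K (sw _ _ e2) (sw _ _ e3)
    have hset : tr (f ^ (2 * K)) A ∪ (tr (f ^ (0 : ℤ)) A ∪ tr (f ^ K) A) = T := by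
      rw [hT, Set.union_comm, Set.union_assoc]
    rwa [hset] at this
  have sub0 : tr (f ^ (0 : ℤ)) A ⊆ T := Set.subset_union_left
  have sub1 : tr (f ^ K) A ⊆ T := Set.subset_union_left.trans Set.subset_union_right
  rcases H.three T hTb _ _ _ u0 u1 u2 with h | h | h
  · exact c2' 0 K e1 (h.mono sub0)
  · exact c2' K (2 * K) e3 (h.mono sub1)
  · exact c2' 0 (2 * K) e2 (h.mono sub0)

/-- If the graph is two-ended, then the powers of a proper element are coarsely dense. -/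
lemma Setup.dense (H : Setup Γ) {f : G} (hf : Proper Γ f) {B : Set G} (hB : Bd Γ B)
    {c₁ c₂ : G} (h1 : Unb Γ B c₁) (h2 : Unb Γ B c₂) (h12 : ¬ Rch Γ B c₁ c₂) :
    ∃ R : ℕ, ∀ v : G, ∃ n : ℤ, Γ.dist (f ^ n) v ≤ R := by
  obtain ⟨N, hN⟩ := H.separated hf hB h1 h2 h12
  obtain ⟨r, hr⟩ := id hB
  refine ⟨2 * r + Γ.dist 1 f, fun v => ?_⟩
  by_contra hno
  push Not at hno
  set A := tr v B with hAdef
  have hAr : ∀ a ∈ A, Γ.dist v a ≤ r := by
    rintro _ ⟨b, hb, rfl⟩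
    have := H.dm v 1 b
    rw [mul_one] at this
    simp only
    rw [this]
    exact hr b hb
  have hAfar : ∀ a ∈ A, ∀ n : ℤ, Γ.dist 1 f + r < Γ.dist (f ^ n) a := by
    intro a ha n
    have h3 := hno n
    have h4 := hAr a ha
    have h5 := H.tri (f ^ n) a v
    rw [SimpleGraph.dist_comm (u := a)] at h5
    omega
  have hax := H.axis (A := A) (f := f) (fun a ha n => by have := hAfar a ha n; omega)
  obtain ⟨y, hy, hy1⟩ : ∃ y, Unb Γ A y ∧ ¬ Rch Γ A (f ^ (0 : ℤ)) y := by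
    by_cases h : Rch Γ A (f ^ (0 : ℤ)) (v * c₁)
    · refine ⟨v * c₂, (H.unb_tr v).mpr h2, fun h' => h12 ?_⟩
      exact (H.rtr v).mp (h.symm.trans h')
    · exact ⟨v * c₁, (H.unb_tr v).mpr h1, h⟩
  have hyB : ∀ w ∈ comp Γ A y, w ∉ B := by
    intro w hw hwB
    apply hy1
    have : Rch Γ A (f ^ (0 : ℤ)) w := by
      apply path_avoid H.conn (L := r)
      · intro a ha
        have := hAfar a ha 0
        omega
      · rw [zpow_zero]; exact hr w hwB
    exact this.trans (Rch.symm hw)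
  have hyT : Unb Γ (A ∪ B) y := by
    refine ⟨?_, ?_⟩
    · rintro (h | h)
      · exact hy.1 h
      · exact hyB _ (mem_comp_self hy.1) h
    · rw [comp_union hyB]
      exact hy.2
  have hTb : Bd Γ (A ∪ B) := (H.bd_tr v hB).union hB
  obtain ⟨N₂, hN₂⟩ := H.tails hf hTb
  obtain ⟨u1, u2, -, -⟩ := hN₂ (max N N₂) (le_max_right _ _)
  have hsep := hN (max N N₂) (le_max_left _ _)
  rcases H.three (A ∪ B) hTb _ _ _ u1 u2 hyT with h | h | h
  · exact hsep (h.mono Set.subset_union_right)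
  · exact hy1 ((hax 0 _).trans (h.mono Set.subset_union_left))
  · exact hy1 ((hax 0 _).trans (h.mono Set.subset_union_left))

end Pool.Agent.Helper50.Ends
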