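import Mathlib
import Pool.Agent.Helper50.Ends.Main

set_option autoImplicit false

namespace Pool.Agent.Helper50.Ends

open Relation

variable {G : Type*} [Group G] {Γ : SimpleGraph G}

/-- A translation that maps a component deeply into itself has proper powers. -/
lemma Setup.proper_of_nested (H : Setup Γ) {B : Set G} {c h b₀ : G} (hb₀ : b₀ ∈ B)
    (hsub : ∀ v ∈ comp Γ B c, h * v ∈ comp Γ B c) (hB : ∀ b ∈ B, h * b ∈ comp Γ B c) :
    Proper Γ h := by
  have hCB : ∀ v ∈ comp Γ B c, v ∉ B := fun v hv => Rch.notMem_right hv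
  have pow_in : ∀ (k : ℕ) (v : G), v ∈ comp Γ B c → h ^ k * v ∈ comp Γ B c := by
    intro k v hv
    induction k with
    | zero => simpa using hv
    | succ k ih =>
      rw [pow_succ', mul_assoc]
      exact hsub _ ih
  have pow_B : ∀ (k : ℕ) (b : G), b ∈ B → h ^ (k + 1) * b ∈ comp Γ B c := by
    intro k b hb
    rw [pow_succ, mul_assoc]
    exact pow_in k _ (hB b hb)
  set p := h * b₀ with hp
  have key : ∀ n : ℕ, n ≤ Γ.dist p (h ^ n * p) + 1 := by
    intro n
    have hmeet : ∀ j : ℕ, 1 ≤ j → j ≤ n → ∀ w : Γ.Walk p (h ^ n * p),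
        ∃ v ∈ w.support, v ∈ tr (h ^ j) B := by
      intro j hj hjn w
      by_contra hno
      push Not at hno
      have h1 : Rch Γ (tr (h ^ j) B) p (h ^ n * p) := rch_of_walk w hno
      -- `h ^ n * p` lies in the translated component
      have h2 : h ^ n * p ∈ comp Γ (tr (h ^ j) B) (h ^ j * c) := by
        rw [H.comp_tr, mem_tr]
        obtain ⟨k, rfl⟩ := Nat.exists_eq_add_of_le hjn
        rw [pow_add, mul_assoc, inv_mul_cancel_left]
        exact pow_in k _ (hB b₀ hb₀)
      have h3 : p ∈ comp Γ (tr (h ^ j) B) (h ^ j * c) := Rch.trans h2 h1.symm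
      rw [H.comp_tr, mem_tr] at h3
      -- so `b₀` lies in the component
      obtain ⟨k, rfl⟩ := Nat.exists_eq_add_of_le hj
      have h4 := pow_in k _ h3
      have h5 : h ^ k * ((h ^ (1 + k))⁻¹ * p) = b₀ := by
        rw [hp, add_comm 1 k, pow_succ', mul_inv_rev]
        have : h ^ k * ((h ^ k)⁻¹ * h⁻¹ * (h * b₀)) = b₀ := by group
        exact this
      rw [h5] at h4
      exact hCB _ h4 hb₀
    obtain ⟨w, hw⟩ := H.conn.exists_walk_length_eq_dist p (h ^ n * p)
    classical
    choose! v hv using fun (j : ℕ) (hj : 1 ≤ j ∧ j ≤ n) => hmeet j hj.1 hj.2 w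
    have hinj : Set.InjOn v (Finset.Icc 1 n : Finset ℕ) := by
      have aux : ∀ i j : ℕ, 1 ≤ i → i < j → j ≤ n → v i ≠ v j := by
        intro i j hi hij hj heq
        have h1 := (hv i ⟨hi, by omega⟩).2
        have h2 := (hv j ⟨by omega, hj⟩).2
        rw [heq, mem_tr] at h1
        rw [mem_tr] at h2
        obtain ⟨k, rfl⟩ := Nat.exists_eq_add_of_le (Nat.succ_le_of_lt hij)
        have h3 := pow_B k _ h2
        apply hCB _ h3
        have h4 : h ^ (k + 1) * ((h ^ (i.succ + k))⁻¹ * v (i.succ + k)) =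
            (h ^ i)⁻¹ * v (i.succ + k) := by
          rw [show i.succ + k = i + (k + 1) by omega, pow_add h i (k + 1), mul_inv_rev]
          group
        rw [h4]
        exact h1
      intro i hi j hj heq
      simp only [Finset.coe_Icc, Set.mem_Icc] at hi hj
      rcases lt_trichotomy i j with hlt | heq' | hlt
      · exact absurd heq (aux i j hi.1 hlt hj.2)
      · exact heq'
      · exact absurd heq.symm (aux j i hj.1 hlt hi.2)
    have hcard : (Finset.Icc 1 n).card ≤ w.support.toFinset.card := by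
      apply Finset.card_le_card_of_injOn v _ hinj
      intro j hj
      simp only [Finset.coe_Icc, Set.mem_Icc] at hj
      simp only [List.coe_toFinset, Set.mem_ofPred_eq]
      exact (hv j hj).1
    have h2 := List.toFinset_card_le w.support
    rw [SimpleGraph.Walk.length_support, hw] at h2
    rw [Nat.card_Icc] at hcard
    omega
  -- conclusion
  have key2 : ∀ n : ℕ, n ≤ Γ.dist 1 (h ^ n) + 2 * Γ.dist 1 p + 1 := by
    intro n
    have h1 := key n
    have h2 := H.tri p 1 (h ^ n * p)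
    have h3 := H.dist_mul (h ^ n) p
    rw [SimpleGraph.dist_comm (u := p) (v := 1)] at h2
    omega
  intro R
  apply Set.Finite.subset (Set.finite_Icc (-((R : ℤ) + 2 * Γ.dist 1 p + 1))
    ((R : ℤ) + 2 * Γ.dist 1 p + 1))
  intro n hn
  simp only [Set.mem_ofPred_eq] at hn
  rw [Set.mem_Icc, ← abs_le]
  obtain ⟨m, rfl | rfl⟩ := n.eq_nat_or_neg
  · rw [zpow_natCast] at hn
    have := key2 m
    rw [abs_of_nonneg (by positivity)]
    omega
  · rw [zpow_neg, zpow_natCast, H.dist_inv] at hn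
    have := key2 m
    rw [abs_neg, abs_of_nonneg (by positivity)]
    omega

/-- A two-ended graph has an element with proper powers. -/
lemma Setup.exists_proper (H : Setup Γ) {B : Set G} (hB : Bd Γ B) {c₁ c₂ : G}
    (h1 : Unb Γ B c₁) (h2 : Unb Γ B c₂) (h12 : ¬ Rch Γ B c₁ c₂) : ∃ h : G, Proper Γ h := by
  obtain ⟨r, hr⟩ := hB
  -- `B` is nonempty
  obtain ⟨b₀, hb₀⟩ : B.Nonempty := by
    rw [Set.nonempty_iff_ne_empty]
    rintro rfl
    obtain ⟨w⟩ := H.conn.preconnected c₁ c₂
    exact h12 (rch_of_walk w (fun v _ => Set.notMem_empty v))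
  have main : ∀ c : G, Unb Γ B c → ∃ g : G, (∀ b ∈ B, g * b ∈ comp Γ B c) ∧
      ((∀ v ∈ comp Γ B c₁, g * v ∈ comp Γ B c) ∨ (∀ v ∈ comp Γ B c₂, g * v ∈ comp Γ B c)) := by
    intro c hc
    obtain ⟨g, hg, hgd⟩ : ∃ g ∈ comp Γ B c, 2 * r < Γ.dist 1 g := by
      by_contra hno
      push Not at hno
      exact hc.2 ⟨_, hno⟩
    have hgB : ∀ b ∈ B, r < Γ.dist g b := by
      intro b hb
      have h3 := H.tri 1 b g
      have h4 := hr b hb
      rw [SimpleGraph.dist_comm (u := b)] at h3
      omega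
    have hball : ∀ v, Γ.dist g v ≤ r → v ∈ comp Γ B c := by
      intro v hv
      exact Rch.trans hg (path_avoid H.conn hgB hv)
    have hAr : ∀ a ∈ tr g B, Γ.dist g a ≤ r := by
      rintro _ ⟨b, hb, rfl⟩
      have := H.dm g 1 b
      rw [mul_one] at this
      simp only
      rw [this]
      exact hr b hb
    have hA1 : ∀ a ∈ tr g B, r < Γ.dist 1 a := by
      intro a ha
      have h3 := H.tri 1 a g
      have h4 := hAr a ha
      rw [SimpleGraph.dist_comm (u := a)] at h3
      omega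
    refine ⟨g, fun b hb => hball _ (hAr _ ⟨b, hb, rfl⟩), ?_⟩
    have sub : ∀ c' : G, c' ∉ B → ¬ Rch Γ (tr g B) 1 (g * c') →
        ∀ v ∈ comp Γ B c', g * v ∈ comp Γ B c := by
      intro c' hc' hno v hv
      have hv' : Rch Γ (tr g B) (g * c') (g * v) := (H.rtr g).mpr hv
      have hw : ∀ w ∈ comp Γ (tr g B) (g * v), w ∉ B := by
        intro w hw hwB
        apply hno
        have : Rch Γ (tr g B) 1 w := path_avoid H.conn hA1 (hr w hwB)
        exact this.trans ((Rch.symm hw).trans hv'.symm)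
      have : Rch Γ B (g * v) g :=
        touch H.conn hAr hv'.notMem_right hgB hw
      exact Rch.trans hg this.symm
    by_cases h : Rch Γ (tr g B) 1 (g * c₁)
    · right
      apply sub c₂ h2.1
      intro h'
      apply h12
      exact (H.rtr g).mp (h.symm.trans h')
    · left
      exact sub c₁ h1.1 h
  obtain ⟨g₁, hg₁B, hg₁⟩ := main c₁ h1
  obtain ⟨g₂, hg₂B, hg₂⟩ := main c₂ h2
  rcases hg₁ with hg₁ | hg₁
  · exact ⟨g₁, H.proper_of_nested hb₀ hg₁ hg₁B⟩
  rcases hg₂ with hg₂ | hg₂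
  · refine ⟨g₁ * g₂, H.proper_of_nested (c := c₁) hb₀ ?_ ?_⟩
    · intro v hv
      rw [mul_assoc]
      exact hg₁ _ (hg₂ v hv)
    · intro b hb
      rw [mul_assoc]
      exact hg₁ _ (hg₂B b hb)
  · exact ⟨g₂, H.proper_of_nested hb₀ hg₂ hg₂B⟩

end Pool.Agent.Helper50.Ends
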