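import Mathlib
import Pool.Agent.Helper50.Ends.Defs
import Pool.Agent.Helper50.Ends.Proper

set_option autoImplicit false

namespace Pool.Agent.Helper50.Ends

section Reach

variable {G : Type*} [Group G] {Γ : SimpleGraph G} {A : Set G}

omit [Group G] in
lemma reach_iff {x y : G} (hx : x ∈ Aᶜ) (hy : y ∈ Aᶜ) :
    (Γ.induce Aᶜ).Reachable ⟨x, hx⟩ ⟨y, hy⟩ ↔ Rch Γ A x y := by
  constructor
  · rintro ⟨w⟩
    have key : ∀ {u v : ↥(Aᶜ)} (w : (Γ.induce Aᶜ).Walk u v), Rch Γ A u v := by
      intro u v w
      induction w with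
      | nil =>
        rename_i u
        exact Rch.refl u.2
      | cons hadj w ih =>
        rename_i a b c
        exact ⟨a.2, Relation.ReflTransGen.head ⟨hadj, b.2⟩ ih.2⟩
    exact key w
  · rintro ⟨_, h⟩
    induction h with
    | refl => exact SimpleGraph.Reachable.refl _
    | tail h1 h2 ih =>
      rename_i b c
      have hb : b ∈ Aᶜ := Rch.notMem_right ⟨hx, h1⟩
      refine (ih hb).trans ?_
      apply SimpleGraph.Adj.reachable
      exact h2.1

lemma vertices_eq {x : G} (hx : x ∈ Aᶜ) :
    componentVertices Γ A ((Γ.induce Aᶜ).connectedComponentMk ⟨x, hx⟩) = comp Γ A x := by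
  ext g
  constructor
  · rintro ⟨h, hg⟩
    rw [SimpleGraph.ConnectedComponent.eq] at hg
    exact Rch.symm ((reach_iff h hx).mp hg)
  · intro hg
    refine ⟨hg.notMem_right, ?_⟩
    rw [SimpleGraph.ConnectedComponent.eq]
    exact (reach_iff _ hx).mpr (Rch.symm hg)

lemma unb_iff {x : G} (hx : x ∈ Aᶜ) :
    (¬ IsBounded Γ (componentVertices Γ A ((Γ.induce Aᶜ).connectedComponentMk ⟨x, hx⟩))) ↔
      Unb Γ A x := by
  rw [vertices_eq]
  exact ⟨fun h => ⟨hx, h⟩, fun h => h.2⟩

/-- At most two unbounded components, in terms of points. -/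
lemma encard_le_two_iff :
    Set.encard {C : (Γ.induce Aᶜ).ConnectedComponent |
      ¬ IsBounded Γ (componentVertices Γ A C)} ≤ 2 ↔
    ∀ x y z : G, Unb Γ A x → Unb Γ A y → Unb Γ A z →
      Rch Γ A x y ∨ Rch Γ A y z ∨ Rch Γ A x z := by
  constructor
  · intro hle x y z hx hy hz
    by_contra hno
    push Not at hno
    obtain ⟨h1, h2, h3⟩ := hno
    have hx' : x ∈ Aᶜ := hx.1
    have hy' : y ∈ Aᶜ := hy.1
    have hz' : z ∈ Aᶜ := hz.1
    have hsub : ({(Γ.induce Aᶜ).connectedComponentMk ⟨x, hx'⟩,
        (Γ.induce Aᶜ).connectedComponentMk ⟨y, hy'⟩,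
        (Γ.induce Aᶜ).connectedComponentMk ⟨z, hz'⟩} :
        Set (Γ.induce Aᶜ).ConnectedComponent) ⊆ {C : (Γ.induce Aᶜ).ConnectedComponent |
      ¬ IsBounded Γ (componentVertices Γ A C)} := by
      intro C hC
      simp only [Set.mem_insert_iff, Set.mem_singleton_iff] at hC
      rcases hC with rfl | rfl | rfl
      · exact (unb_iff hx').mpr hx
      · exact (unb_iff hy').mpr hy
      · exact (unb_iff hz').mpr hz
    have hcard := (Set.encard_le_encard hsub).trans hle
    rw [Set.encard_insert_of_notMem, Set.encard_pair] at hcard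
    · norm_num at hcard
    · intro h
      rw [SimpleGraph.ConnectedComponent.eq] at h
      exact h2 ((reach_iff hy' hz').mp h)
    · intro h
      simp only [Set.mem_insert_iff, Set.mem_singleton_iff,
        SimpleGraph.ConnectedComponent.eq] at h
      rcases h with h | h
      · exact h1 ((reach_iff hx' hy').mp h)
      · exact h3 ((reach_iff hx' hz').mp h)
  · intro h
    by_contra hlt
    push Not at hlt
    set U := {C : (Γ.induce Aᶜ).ConnectedComponent |
      ¬ IsBounded Γ (componentVertices Γ A C)} with hU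
    have h3 : (3 : ℕ∞) ≤ U.encard := by
      have := Order.add_one_le_of_lt hlt
      norm_num at this
      exact this
    obtain ⟨V, hVU, hV⟩ := Set.exists_subset_encard_eq h3
    rw [Set.encard_eq_three] at hV
    obtain ⟨C, D, E, hCD, hCE, hDE, rfl⟩ := hV
    have hC : C ∈ U := hVU (by simp)
    have hD : D ∈ U := hVU (by simp)
    have hE : E ∈ U := hVU (by simp)
    obtain ⟨⟨x, hx⟩, rfl⟩ := C.exists_rep
    obtain ⟨⟨y, hy⟩, rfl⟩ := D.exists_rep
    obtain ⟨⟨z, hz⟩, rfl⟩ := E.exists_rep
    rcases h x y z ((unb_iff hx).mp hC) ((unb_iff hy).mp hD) ((unb_iff hz).mp hE) with h | h | h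
    · exact hCD (SimpleGraph.ConnectedComponent.eq.mpr ((reach_iff hx hy).mpr h))
    · exact hDE (SimpleGraph.ConnectedComponent.eq.mpr ((reach_iff hy hz).mpr h))
    · exact hCE (SimpleGraph.ConnectedComponent.eq.mpr ((reach_iff hx hz).mpr h))

lemma two_le_encard_iff :
    2 ≤ Set.encard {C : (Γ.induce Aᶜ).ConnectedComponent |
      ¬ IsBounded Γ (componentVertices Γ A C)} ↔
    ∃ x y : G, Unb Γ A x ∧ Unb Γ A y ∧ ¬ Rch Γ A x y := by
  constructor
  · intro hle
    obtain ⟨V, hVU, hV⟩ := Set.exists_subset_encard_eq hle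
    rw [Set.encard_eq_two] at hV
    obtain ⟨C, D, hCD, rfl⟩ := hV
    have hC := hVU (show C ∈ ({C, D} : Set _) by simp)
    have hD := hVU (show D ∈ ({C, D} : Set _) by simp)
    obtain ⟨⟨x, hx⟩, rfl⟩ := C.exists_rep
    obtain ⟨⟨y, hy⟩, rfl⟩ := D.exists_rep
    exact ⟨x, y, (unb_iff hx).mp hC, (unb_iff hy).mp hD, fun h =>
      hCD (SimpleGraph.ConnectedComponent.eq.mpr ((reach_iff hx hy).mpr h))⟩
  · rintro ⟨x, y, hx, hy, hxy⟩
    have hx' : x ∈ Aᶜ := hx.1
    have hy' : y ∈ Aᶜ := hy.1
    have hsub : ({(Γ.induce Aᶜ).connectedComponentMk ⟨x, hx'⟩,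
        (Γ.induce Aᶜ).connectedComponentMk ⟨y, hy'⟩} :
        Set (Γ.induce Aᶜ).ConnectedComponent) ⊆ {C : (Γ.induce Aᶜ).ConnectedComponent |
      ¬ IsBounded Γ (componentVertices Γ A C)} := by
      intro C hC
      simp only [Set.mem_insert_iff, Set.mem_singleton_iff] at hC
      rcases hC with rfl | rfl
      · exact (unb_iff hx').mpr hx
      · exact (unb_iff hy').mpr hy
    refine le_trans ?_ (Set.encard_le_encard hsub)
    rw [Set.encard_pair]
    intro h
    rw [SimpleGraph.ConnectedComponent.eq] at h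
    exact hxy ((reach_iff hx' hy').mp h)

/-- The number of ends is two iff no bounded set leaves three unbounded components and some bounded
set leaves two. -/
lemma numEnds_eq_two_iff : numEnds Γ = 2 ↔
    (∀ A : Set G, Bd Γ A → ∀ x y z : G, Unb Γ A x → Unb Γ A y → Unb Γ A z →
      Rch Γ A x y ∨ Rch Γ A y z ∨ Rch Γ A x z) ∧
    ∃ A : Set G, Bd Γ A ∧ ∃ x y : G, Unb Γ A x ∧ Unb Γ A y ∧ ¬ Rch Γ A x y := by
  constructor
  · intro hends
    refine ⟨?_, ?_⟩
    · intro A hA
      rw [← encard_le_two_iff, ← hends]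
      exact le_iSup (fun B : {B : Set G // IsBounded Γ B} =>
        Set.encard {C : (Γ.induce (B.1)ᶜ).ConnectedComponent |
          ¬ IsBounded Γ (componentVertices Γ B.1 C)}) ⟨A, hA⟩
    · by_contra hno
      have hone : numEnds Γ ≤ 1 := by
        apply iSup_le
        rintro ⟨A, hA⟩
        by_contra hlt
        push Not at hlt
        apply hno
        refine ⟨A, hA, two_le_encard_iff.mp ?_⟩
        have := Order.add_one_le_of_lt hlt
        norm_num at this
        exact this
      rw [hends] at hone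
      norm_num at hone
  · rintro ⟨h3, A, hA, h2⟩
    apply le_antisymm
    · apply iSup_le
      rintro ⟨B, hB⟩
      exact encard_le_two_iff.mpr (h3 B hB)
    · refine le_trans (two_le_encard_iff.mpr h2) ?_
      exact le_iSup (fun B : {B : Set G // IsBounded Γ B} =>
        Set.encard {C : (Γ.induce (B.1)ᶜ).ConnectedComponent |
          ¬ IsBounded Γ (componentVertices Γ B.1 C)}) ⟨A, hA⟩

end Reach

section Cay

variable {G : Type*} [Group G] {S : Set G}

lemma cayley_inv (k g h : G) (hadj : (cayley S).Adj g h) : (cayley S).Adj (k * g) (k * h) := by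
  obtain ⟨hne, hadj⟩ := hadj
  refine ⟨fun hc => hne (mul_left_cancel hc), ?_⟩
  simpa [mul_inv_rev, mul_assoc] using hadj

lemma cayley_connected (hgen : Subgroup.closure S = ⊤) : (cayley S).Connected := by
  have hreach : ∀ g : G, (cayley S).Reachable 1 g := by
    intro g
    have hg : g ∈ Subgroup.closure S := by rw [hgen]; trivial
    induction hg using Subgroup.closure_induction_right with
    | one => exact SimpleGraph.Reachable.refl _
    | mul_right x hx y hy ih =>
      refine ih.trans ?_
      by_cases hxy : x = x * y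
      · rw [← hxy]
      · apply SimpleGraph.Adj.reachable
        exact ⟨hxy, Or.inl (by simpa using hy)⟩
    | mul_inv_cancel x hx y hy ih =>
      refine ih.trans ?_
      by_cases hxy : x = x * y⁻¹
      · rw [← hxy]
      · apply SimpleGraph.Adj.reachable
        exact ⟨hxy, Or.inr (by simpa using hy)⟩
  exact ⟨fun x y => (hreach x).symm.trans (hreach y)⟩

/-- Continuous left-invariant pseudometrics are Lipschitz for the word metric. -/
lemma lipschitz [TopologicalSpace G] (hS : CoarselyBounded S) (hgen : Subgroup.closure S = ⊤)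
    (δ : LeftPseudometric G) :
    ∃ K : ℝ, 0 ≤ K ∧ ∀ g h : G, δ.d g h ≤ (cayley S).dist g h * K := by
  obtain ⟨K, hK0, hK⟩ : ∃ K : ℝ, 0 ≤ K ∧ ∀ s ∈ S, δ.d 1 s ≤ K := by
    obtain ⟨K, hK⟩ := hS δ
    by_cases hne : S.Nonempty
    · obtain ⟨s₀, hs₀⟩ := hne
      refine ⟨max 0 (δ.d 1 s₀ + K), le_max_left _ _, fun s hs => ?_⟩
      have h1 := δ.d_triangle 1 s₀ s
      have h2 := hK s₀ hs₀ s hs
      exact le_trans (by linarith) (le_max_right _ _)
    · refine ⟨0, le_rfl, fun s hs => absurd ⟨s, hs⟩ hne⟩
  have hadj : ∀ g h : G, (cayley S).Adj g h → δ.d g h ≤ K := by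
    rintro g h ⟨-, hgh | hgh⟩
    · have := δ.d_left g⁻¹ g h
      rw [inv_mul_cancel] at this
      rw [← this]
      exact hK _ hgh
    · have := δ.d_left h⁻¹ h g
      rw [inv_mul_cancel] at this
      rw [δ.d_symm, ← this]
      exact hK _ hgh
  have hwalk : ∀ {g h : G} (w : (cayley S).Walk g h), δ.d g h ≤ w.length * K := by
    intro g h w
    induction w with
    | nil => simp [δ.d_self]
    | cons hab w ih =>
      rename_i a b c
      have h1 := δ.d_triangle a b c
      have h2 := hadj a b hab
      rw [SimpleGraph.Walk.length_cons]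
      push_cast
      linarith
  refine ⟨K, hK0, fun g h => ?_⟩
  obtain ⟨w, hw⟩ := (cayley_connected hgen).exists_walk_length_eq_dist g h
  rw [← hw]
  exact hwalk w

lemma setup_of_two (hgen : Subgroup.closure S = ⊤) (h : numEnds (cayley S) = 2) :
    Setup (cayley S) :=
  ⟨cayley_inv, cayley_connected hgen, (numEnds_eq_two_iff.mp h).1⟩

/-- The converse: a coarsely dense cyclic subgroup with proper powers gives exactly two ends. -/
lemma two_of_cyclic (hgen : Subgroup.closure S = ⊤) {f : G} (hf : Proper (cayley S) f) {R : ℕ}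
    (hR : ∀ g : G, ∃ n : ℤ, (cayley S).dist (f ^ n) g ≤ R) : numEnds (cayley S) = 2 := by
  set Γ := cayley S with hΓ
  have hconn : Γ.Connected := cayley_connected hgen
  have hdm : ∀ k g h : G, Γ.dist (k * g) (k * h) = Γ.dist g h := dist_mul_left (Γ := Γ) (fun k g h => cayley_inv k g h) hconn
  have htri : ∀ x y z : G, Γ.dist x z ≤ Γ.dist x y + Γ.dist y z :=
    fun x y z => hconn.dist_triangle
  -- tails, without the assumption on three components
  have tails : ∀ A : Set G, Bd Γ A → ∃ N : ℕ,
      (∀ n m : ℤ, (N : ℤ) ≤ n → (N : ℤ) ≤ m → Rch Γ A (f ^ n) (f ^ m)) ∧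
      (∀ n m : ℤ, (N : ℤ) ≤ n → (N : ℤ) ≤ m → Rch Γ A (f ^ (-n)) (f ^ (-m))) ∧
      (∀ n : ℤ, (N : ℤ) ≤ |n| → ∀ a ∈ A, R < Γ.dist (f ^ n) a) := by
    intro A hA
    obtain ⟨K, hK⟩ := hA
    obtain ⟨N, hN⟩ := hf.exists_bound (K + Γ.dist 1 f + R)
    have far : ∀ n : ℤ, (N : ℤ) ≤ |n| → ∀ a ∈ A, Γ.dist 1 f + R < Γ.dist (f ^ n) a := by
      intro n hn a ha
      have h1 := hN n hn
      have h2 := hK a ha
      have h3 := htri 1 a (f ^ n)
      rw [SimpleGraph.dist_comm (u := a)] at h3
      omega
    have hstep : ∀ n : ℤ, Γ.dist (f ^ n) (f ^ (n + 1)) = Γ.dist 1 f := by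
      intro n
      have := hdm (f ^ n) 1 f
      rw [mul_one, ← zpow_add_one] at this
      exact this
    have step : ∀ n : ℤ, (N : ℤ) ≤ |n| → Rch Γ A (f ^ n) (f ^ (n + 1)) := by
      intro n hn
      apply path_avoid hconn (L := Γ.dist 1 f)
      · intro a ha
        have := far n hn a ha
        omega
      · exact (hstep n).le
    have up : ∀ n : ℤ, (N : ℤ) ≤ n → ∀ k : ℕ, Rch Γ A (f ^ n) (f ^ (n + k)) := by
      intro n hn k
      induction k with
      | zero => simpa using Rch.refl (step n (by rw [abs_of_nonneg (by omega)]; exact hn)).1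
      | succ k ih =>
        have h1 := ih.trans (step (n + k) (by rw [abs_of_nonneg (by omega)]; omega))
        simpa [add_assoc] using h1
    have down : ∀ n : ℤ, (N : ℤ) ≤ n → ∀ k : ℕ, Rch Γ A (f ^ (-n)) (f ^ (-(n + k))) := by
      intro n hn k
      induction k with
      | zero =>
        have h0 : (N : ℤ) ≤ |(-n)| := by rw [abs_neg, abs_of_nonneg (by omega)]; exact hn
        simpa using Rch.refl (step (-n) h0).1
      | succ k ih =>
        have h0 : (N : ℤ) ≤ |-(n + k) - 1| := by
          rw [show -(n + k) - 1 = -(n + k + 1) by ring, abs_neg, abs_of_nonneg (by omega)]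
          omega
        have h1 := (step (-(n + k) - 1) h0).symm
        rw [sub_add_cancel] at h1
        have h2 := ih.trans h1
        have h3 : -(n + k) - 1 = -(n + ((k + 1 : ℕ) : ℤ)) := by push_cast; ring
        rw [h3] at h2
        exact h2
    refine ⟨N, ?_, ?_, ?_⟩
    · intro n m hn hm
      rcases le_total n m with h | h
      · obtain ⟨k, rfl⟩ := Int.le.dest h
        exact up n hn k
      · obtain ⟨k, rfl⟩ := Int.le.dest h
        exact (up m hm k).symm
    · intro n m hn hm
      rcases le_total n m with h | h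
      · obtain ⟨k, rfl⟩ := Int.le.dest h
        exact down n hn k
      · obtain ⟨k, rfl⟩ := Int.le.dest h
        exact (down m hm k).symm
    · intro n hn a ha
      exact lt_of_le_of_lt (Nat.le_add_left _ _) (far n hn a ha)
  have dist_pow : ∀ n : ℕ, Γ.dist 1 (f ^ n) ≤ n * Γ.dist 1 f := by
    intro n
    induction n with
    | zero => simp
    | succ n ih =>
      have h1 := htri 1 (f ^ n) (f ^ (n + 1))
      have h2 := hdm (f ^ n) 1 f
      rw [mul_one, ← pow_succ] at h2
      calc Γ.dist 1 (f ^ (n + 1)) ≤ Γ.dist 1 (f ^ n) + Γ.dist 1 f := by omega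
        _ ≤ n * Γ.dist 1 f + Γ.dist 1 f := by omega
        _ = (n + 1) * Γ.dist 1 f := by ring
  rw [numEnds_eq_two_iff]
  refine ⟨?_, ?_⟩
  · -- at most two unbounded components
    intro A hA x y z hx hy hz
    obtain ⟨N, hup, hdown, hfar⟩ := tails A hA
    have key : ∀ x : G, Unb Γ A x → Rch Γ A x (f ^ (N : ℤ)) ∨ Rch Γ A x (f ^ (-(N : ℤ))) := by
      intro x hx
      obtain ⟨g, hg, hgd⟩ : ∃ g ∈ comp Γ A x, N * Γ.dist 1 f + R < Γ.dist 1 g := by
        by_contra hno
        push Not at hno
        exact hx.2 ⟨_, hno⟩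
      obtain ⟨n, hn⟩ := hR g
      have hnN : (N : ℤ) ≤ |n| := by
        by_contra hlt
        push Not at hlt
        have h1 : Γ.dist 1 (f ^ n) ≤ N * Γ.dist 1 f := by
          obtain ⟨m, rfl | rfl⟩ := n.eq_nat_or_neg
          · rw [abs_of_nonneg (by positivity)] at hlt
            rw [zpow_natCast]
            exact (dist_pow m).trans (Nat.mul_le_mul_right _ (by omega))
          · rw [abs_neg, abs_of_nonneg (by positivity)] at hlt
            rw [zpow_neg, zpow_natCast]
            have h2 := hdm (f ^ m) 1 (f ^ m)⁻¹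
            rw [mul_one, mul_inv_cancel, SimpleGraph.dist_comm] at h2
            rw [← h2]
            exact (dist_pow m).trans (Nat.mul_le_mul_right _ (by omega))
        have h2 := htri 1 (f ^ n) g
        omega
      have hgn : Rch Γ A (f ^ n) g := path_avoid hconn (hfar n hnN) hn
      have hxn : Rch Γ A x (f ^ n) := Rch.trans hg hgn.symm
      rcases abs_cases n with ⟨h, _⟩ | ⟨h, _⟩
      · left
        rw [h] at hnN
        exact hxn.trans (hup n N hnN le_rfl)
      · right
        rw [h] at hnN
        have := hdown (-n) N hnN le_rfl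
        rw [neg_neg] at this
        exact hxn.trans this
    rcases key x hx with h1 | h1 <;> rcases key y hy with h2 | h2 <;>
      rcases key z hz with h3 | h3
    · exact Or.inl (h1.trans h2.symm)
    · exact Or.inl (h1.trans h2.symm)
    · exact Or.inr (Or.inr (h1.trans h3.symm))
    · exact Or.inr (Or.inl (h2.trans h3.symm))
    · exact Or.inr (Or.inl (h2.trans h3.symm))
    · exact Or.inr (Or.inr (h1.trans h3.symm))
    · exact Or.inl (h1.trans h2.symm)
    · exact Or.inl (h1.trans h2.symm)
  · -- a large ball separates the two tails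
    obtain ⟨D, hD⟩ := hf.exists_bound (2 * R + 1)
    set K := R + D * Γ.dist 1 f with hK
    set A : Set G := {g | Γ.dist 1 g ≤ K} with hA
    have hAb : Bd Γ A := ⟨K, fun a ha => ha⟩
    obtain ⟨N, hup, hdown, hfar⟩ := tails A hAb
    refine ⟨A, hAb, f ^ (N : ℤ), f ^ (-(N : ℤ)), ⟨(hup N N le_rfl le_rfl).1, ?_⟩,
      ⟨(hdown N N le_rfl le_rfl).1, ?_⟩, ?_⟩
    · rintro ⟨M, hM⟩
      obtain ⟨N', hN'⟩ := hf.exists_bound M
      have h1 := hM _ (hup N (N + N') le_rfl (by omega))
      have h2 := hN' (N + N') (by rw [abs_of_nonneg (by positivity)]; omega)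
      omega
    · rintro ⟨M, hM⟩
      obtain ⟨N', hN'⟩ := hf.exists_bound M
      have h1 := hM _ (hdown N (N + N') le_rfl (by omega))
      have h2 := hN' (-(N + N')) (by rw [abs_neg, abs_of_nonneg (by positivity)]; omega)
      omega
    · -- positive and negative sides
      intro hcon
      have hpos : ∀ x y : G, Rch Γ A x y →
          (∃ n : ℤ, 0 ≤ n ∧ Γ.dist (f ^ n) x ≤ R) → (∃ n : ℤ, 0 ≤ n ∧ Γ.dist (f ^ n) y ≤ R) := by
        rintro x y ⟨hx, hxy⟩ h0
        induction hxy with
        | refl => exact h0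
        | tail h1 h2 ih =>
          rename_i b c
          obtain ⟨n, hn0, hn⟩ := ih
          obtain ⟨m, hm⟩ := hR c
          by_cases hm0 : 0 ≤ m
          · exact ⟨m, hm0, hm⟩
          exfalso
          have hbA : b ∉ A := Rch.notMem_right ⟨hx, h1⟩
          have hbc : Γ.dist b c ≤ 1 := by
            have := SimpleGraph.dist_le (SimpleGraph.Walk.cons h2.1 SimpleGraph.Walk.nil)
            simpa using this
          have h3 : Γ.dist (f ^ m) (f ^ n) ≤ 2 * R + 1 := by
            have e1 := htri (f ^ m) c (f ^ n)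
            have e2 := htri c b (f ^ n)
            rw [SimpleGraph.dist_comm (u := c) (v := b)] at e2
            rw [SimpleGraph.dist_comm (u := b) (v := f ^ n)] at e2
            omega
          have h4 : Γ.dist 1 (f ^ (n - m)) ≤ 2 * R + 1 := by
            have e1 := hdm (f ^ m) 1 (f ^ (n - m))
            rw [mul_one, ← zpow_add, show m + (n - m) = n by ring] at e1
            omega
          have h5 : |n - m| < D := by
            by_contra hge
            push Not at hge
            have := hD (n - m) hge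
            omega
          have h6 : n < D := by
            have := le_abs_self (n - m)
            omega
          apply hbA
          obtain ⟨k, rfl⟩ := Int.eq_ofNat_of_zero_le hn0
          have e1 := htri 1 (f ^ (k : ℤ)) b
          have e2 := dist_pow k
          rw [zpow_natCast] at e1 hn
          have e3 : k * Γ.dist 1 f ≤ D * Γ.dist 1 f := Nat.mul_le_mul_right _ (by omega)
          change Γ.dist 1 b ≤ K
          omega
      obtain ⟨n, hn0, hn⟩ := hpos _ _ hcon ⟨N, by positivity, by simp⟩
      have h4 : Γ.dist 1 (f ^ (n + N)) ≤ 2 * R + 1 := by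
        have e1 := hdm (f ^ (-(N : ℤ))) 1 (f ^ (n + N))
        rw [mul_one, ← zpow_add, show -(N : ℤ) + (n + N) = n by ring,
          SimpleGraph.dist_comm] at e1
        omega
      have h5 : |n + N| < D := by
        by_contra hge
        push Not at hge
        have := hD (n + N) hge
        omega
      have h6 : (N : ℤ) < D := by
        have := le_abs_self (n + N)
        omega
      have hNA : f ^ (N : ℤ) ∉ A := (hup N N le_rfl le_rfl).1
      apply hNA
      have e2 := dist_pow N
      have e3 : N * Γ.dist 1 f ≤ D * Γ.dist 1 f := Nat.mul_le_mul_right _ (by omega)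
      change Γ.dist 1 (f ^ (N : ℤ)) ≤ K
      rw [zpow_natCast]
      omega

end Cay

end Pool.Agent.Helper50.Ends
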